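import Pool.Agent.Y208.BH.Stm

/-!
# Project BH, task NUH: nonunital homomorphisms and the kernel of the action
-/

set_option autoImplicit false

namespace Pool.Agent.Y497.BH

open Y208.BH

theorem p_ai {X : Type} (e : Equiv.Perm X) (x : X) : e (e⁻¹ x) = x := Equiv.apply_symm_apply e x

theorem p_ia {X : Type} (e : Equiv.Perm X) (x : X) : e⁻¹ (e x) = x := Equiv.symm_apply_apply e x

/-- induction over the Steinberg group -/
theorem su_ind {R I : Type} [Ring R] (P : SU R I → Prop) (h1 : P 1)
    (hm : ∀ x y, P x → P y → P (x * y)) (hi : ∀ x, P x → P x⁻¹)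
    (hx : ∀ i j r, i ≠ j → P (xs i j r)) (z : SU R I) : P z := by
  have hz : z ∈ Subgroup.closure {z : SU R I | ∃ (i j : I) (r : R), i ≠ j ∧ z = xs i j r} := by
    rw [closure_xs]; exact Subgroup.mem_top z
  induction hz using Subgroup.closure_induction with
  | mem x hx' =>
    obtain ⟨i, j, r, h, rfl⟩ := hx'
    exact hx i j r h
  | one => exact h1
  | mul x y _ _ hx hy => exact hm x y hx hy
  | inv x _ hx => exact hi x hx

/-- the action is additive -/
theorem rho_add {R V I : Type} [Ring R] [AddCommGroup V] [Module R V] (z : SU R I)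
    (v w : I →₀ V) : rho R V I z (v + w) = rho R V I z v + rho R V I z w := by
  refine su_ind (fun z => ∀ v w, rho R V I z (v + w) = rho R V I z v + rho R V I z w)
    ?_ ?_ ?_ ?_ z v w
  · intro v w; simp
  · intro x y hx hy v w
    rw [map_mul, Equiv.Perm.mul_apply, Equiv.Perm.mul_apply, Equiv.Perm.mul_apply, hy, hx]
  · intro x hx v w
    have h := hx ((rho R V I x)⁻¹ v) ((rho R V I x)⁻¹ w)
    rw [map_inv]
    rw [p_ai, p_ai] at h
    rw [← h, p_ia]
  · intro i j r h v w
    rw [rho_xs, el_apply h, el_apply h, el_apply h]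
    rw [Finsupp.add_apply, smul_add, Finsupp.single_add]
    abel

theorem t_NUH : Y208.BH.S_NUH := by
  intro R R' I _ _ f z hz
  classical
  let θ : R' → (I →₀ R) → (I →₀ R') := fun b w =>
    w.mapRange (fun r => f r * b) (by simp)
  have hθ : ∀ b w i, θ b w i = f (w i) * b := fun b w i => by
    simp only [θ, Finsupp.mapRange_apply]
  have key : ∀ b w, rho R' R' I (mapSU id Function.injective_id f z) (θ b w) =
      θ b (rho R R I z w) := by
    intro b
    refine su_ind (fun z => ∀ w, rho R' R' I (mapSU id Function.injective_id f z) (θ b w) =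
      θ b (rho R R I z w)) ?_ ?_ ?_ ?_ z
    · intro w; simp
    · intro x y hx hy w
      rw [map_mul, map_mul, map_mul, Equiv.Perm.mul_apply, Equiv.Perm.mul_apply, hy, hx]
    · intro x hx w
      rw [map_inv, map_inv, map_inv, Equiv.Perm.inv_eq_iff_eq, hx, p_ai]
    · intro i j r h w
      rw [mapSU_xs, rho_xs, rho_xs, id, id, el_apply h, el_apply h]
      ext k
      rw [Finsupp.add_apply, hθ, hθ, hθ, Finsupp.add_apply, smul_eq_mul, smul_eq_mul]
      by_cases hk : i = k
      · subst hk
        rw [Finsupp.single_eq_same, Finsupp.single_eq_same, map_add, map_mul, add_mul, mul_assoc]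
      · rw [Finsupp.single_eq_of_ne' hk, Finsupp.single_eq_of_ne' hk, add_zero, add_zero]
  have fix : ∀ u : R', (∀ r, f r * u = 0) → ∀ j,
      rho R' R' I (mapSU id Function.injective_id f z) (Finsupp.single j u) =
        Finsupp.single j u := by
    intro u hu
    refine su_ind (fun z => ∀ j, rho R' R' I (mapSU id Function.injective_id f z)
      (Finsupp.single j u) = Finsupp.single j u) ?_ ?_ ?_ ?_ z
    · intro j; simp
    · intro x y hx hy j
      rw [map_mul, map_mul, Equiv.Perm.mul_apply, hy, hx]
    · intro x hx j
      rw [map_inv, map_inv, Equiv.Perm.inv_eq_iff_eq, hx]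
    · intro i k r h j
      rw [mapSU_xs, rho_xs, id, id, el_apply h]
      by_cases hk : j = k
      · subst hk
        rw [Finsupp.single_eq_same, smul_eq_mul, hu, Finsupp.single_zero, add_zero]
      · rw [Finsupp.single_eq_of_ne' hk, smul_zero, Finsupp.single_zero, add_zero]
  have all : ∀ j b, rho R' R' I (mapSU id Function.injective_id f z) (Finsupp.single j b) =
      Finsupp.single j b := by
    intro j b
    have e : (Finsupp.single j b : I →₀ R') =
        θ b (Finsupp.single j 1) + Finsupp.single j (b - f 1 * b) := by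
      have e1 : θ b (Finsupp.single j 1) = Finsupp.single j (f 1 * b) := by
        simp only [θ, Finsupp.mapRange_single]
      rw [e1, ← Finsupp.single_add, add_sub_cancel]
    rw [e, rho_add, key, hz, fix]
    · rfl
    · intro r
      rw [mul_sub, ← mul_assoc, ← map_mul, mul_one, sub_self]
  apply Equiv.ext
  intro w
  induction w using Finsupp.induction_linear with
  | zero =>
    have := rho_add (V := R') (mapSU id Function.injective_id f z) (0 : I →₀ R') 0
    rw [add_zero] at this
    have h0 := (left_eq_add.mp this)
    rw [h0]; rfl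
  | add v w hv hw => rw [rho_add, hv, hw]; rfl
  | single j b => rw [all]; rfl

end Pool.Agent.Y497.BH
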