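import Pool.Agent.Y208.BH.Stm

/-!
# Project BH, task PAIR: the relations which involve only pairs of indices
-/

set_option autoImplicit false

open scoped commutatorElement

namespace Pool.Agent.Y497.BH

open Y208.BH

/-- a variant of `comm_assoc` -/
theorem comm_assoc' {Γ : Type} [Group Γ] {g h l : Γ} (h1 : Commute g l)
    (h2 : Commute ⁅g, h⁆ ⁅h, l⁆) (h3 : Commute ⁅⁅g, h⁆, l⁆ ⁅h, l⁆) :
    ⁅g, ⁅h, l⁆⁆ = ⁅⁅g, h⁆, l⁆ := by
  have e1 : l * ⁅g, h⁆ * l⁻¹ = g * ⁅h, l⁆⁻¹ * g⁻¹ * ⁅g, h⁆ * ⁅h, l⁆ := by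
    have h1' : l * g = g * l := h1.eq.symm
    simp only [commutatorElement_def]
    have e : l * (g * h * g⁻¹ * h⁻¹) * l⁻¹ = (l * g) * h * g⁻¹ * h⁻¹ * l⁻¹ := by group
    rw [e, h1']
    have e : g * (h * l * h⁻¹ * l⁻¹)⁻¹ * g⁻¹ * (g * h * g⁻¹ * h⁻¹) * (h * l * h⁻¹ * l⁻¹) =
      g * l * h * (l⁻¹ * g⁻¹) * l * h⁻¹ * l⁻¹ := by group
    rw [e]
    have e : l⁻¹ * g⁻¹ = g⁻¹ * l⁻¹ := by
      rw [← mul_inv_rev, ← mul_inv_rev, h1']
    rw [e]
    group
  have e2 : ⁅⁅g, h⁆, l⁆ = ⁅h, l⁆⁻¹ * (g * ⁅h, l⁆ * g⁻¹) := by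
    have : ⁅⁅g, h⁆, l⁆ = ⁅g, h⁆ * (l * ⁅g, h⁆ * l⁻¹)⁻¹ := by
      rw [commutatorElement_def ⁅g, h⁆ l]; group
    rw [this, e1]
    have e : ⁅g, h⁆ * (g * ⁅h, l⁆⁻¹ * g⁻¹ * ⁅g, h⁆ * ⁅h, l⁆)⁻¹ =
      (⁅g, h⁆ * ⁅h, l⁆⁻¹) * ⁅g, h⁆⁻¹ * (g * ⁅h, l⁆ * g⁻¹) := by group
    rw [e, (h2.inv_right).eq]
    group
  have e3 : g * ⁅h, l⁆ * g⁻¹ = ⁅h, l⁆ * ⁅⁅g, h⁆, l⁆ := by
    rw [e2]; group
  rw [commutatorElement_def g ⁅h, l⁆, e3, ← h3.eq]
  group

/-- elements commute with a commutator if they commute with both elements -/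
theorem commute_comm {Γ : Type} [Group Γ] {g h x : Γ} (h1 : Commute g x) (h2 : Commute h x) :
    Commute ⁅g, h⁆ x := by
  rw [commutatorElement_def]
  exact ((h1.mul_left h2).mul_left h1.inv_left).mul_left h2.inv_left

theorem sq_comm {Γ : Type} [Group Γ] {g h : Γ} (h1 : h * h = 1) (h2 : Commute ⁅g, h⁆ h) :
    ⁅g, h⁆ * ⁅g, h⁆ = 1 := by
  have e : g * h * g⁻¹ = ⁅g, h⁆ * h := by rw [commutatorElement_def]; group
  have e2 : (g * h * g⁻¹) * (g * h * g⁻¹) = 1 := by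
    have : (g * h * g⁻¹) * (g * h * g⁻¹) = g * (h * h) * g⁻¹ := by group
    rw [this, h1]; group
  rw [e] at e2
  have e3 : ⁅g, h⁆ * h * (⁅g, h⁆ * h) = ⁅g, h⁆ * ⁅g, h⁆ * (h * h) := by
    rw [mul_assoc, ← mul_assoc h, ← h2.eq]; group
  rw [e3, h1, mul_one] at e2
  exact e2

section
variable {A S Γ : Type} [Group Γ]

/-- the letters for all pairs of indices -/
def yy (z : S ⊕ Fin 4 → S ⊕ Fin 4 → Option A → Γ) (i j : S ⊕ Fin 4) (a : Option A) : Γ :=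
  match i, j with
  | .inl s, .inl t => ⁅z (.inl s) (.inr 0) a, z (.inr 0) (.inl t) none⁆
  | i, j => z i j a

theorem yy_al (z : S ⊕ Fin 4 → S ⊕ Fin 4 → Option A → Γ) {i j : S ⊕ Fin 4} (h : Al i j)
    (a : Option A) : yy z i j a = z i j a := by
  obtain ⟨_, ⟨c, rfl⟩ | ⟨c, rfl⟩⟩ := h
  · rfl
  · cases i <;> rfl

theorem al_sp (s : S) (c : Fin 4) : Al (.inl s : S ⊕ Fin 4) (.inr c) :=
  ⟨Sum.inl_ne_inr, Or.inr ⟨c, rfl⟩⟩

theorem al_ps (s : S) (c : Fin 4) : Al (.inr c : S ⊕ Fin 4) (.inl s) :=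
  ⟨Sum.inr_ne_inl, Or.inl ⟨c, rfl⟩⟩

theorem al_pp {c d : Fin 4} (h : c ≠ d) : Al (.inr c : S ⊕ Fin 4) (.inr d) :=
  ⟨fun e => h (Sum.inr_injective e), Or.inl ⟨c, rfl⟩⟩

/-- the product of two letters one of which is `none` -/
def MM (p q r : Option A) : Prop := (p = r ∧ q = none) ∨ (p = none ∧ q = r)

variable {z : S ⊕ Fin 4 → S ⊕ Fin 4 → Option A → Γ} (hz : PairRel z)
include hz

theorem mz {i j k : S ⊕ Fin 4} {p q r : Option A} (h : MM p q r) (h1 : Al i j) (h2 : Al j k)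
    (h3 : Al i k) : ⁅z i j p, z j k q⁆ = z i k r := by
  rcases h with ⟨rfl, rfl⟩ | ⟨rfl, rfl⟩
  · exact hz.mul1 i j k p h1 h2 h3
  · exact hz.mul2 i j k q h1 h2 h3

theorem yy_ss {s t : S} (hst : s ≠ t) (c : Fin 4) {p q r : Option A} (h : MM p q r) :
    ⁅z (.inl s) (.inr c) p, z (.inr c) (.inl t) q⁆ = yy z (.inl s) (.inl t) r := by
  have hst' : (Sum.inl s : S ⊕ Fin 4) ≠ .inl t := fun e => hst (Sum.inl_injective e)
  rcases h with ⟨rfl, rfl⟩ | ⟨rfl, rfl⟩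
  · exact hz.ind1 _ _ _ _ p hst' (al_sp s c) (al_ps t c) (al_sp s 0) (al_ps t 0)
  · exact hz.ind2 _ _ _ _ q hst' (al_sp s c) (al_ps t c) (al_sp s 0) (al_ps t 0)

theorem yy_ss' {s t : S} (hst : s ≠ t) (c : Fin 4) (r : Option A) :
    yy z (.inl s) (.inl t) r = ⁅z (.inl s) (.inr c) r, z (.inr c) (.inl t) none⁆ :=
  (yy_ss hz hst c (Or.inl ⟨rfl, rfl⟩)).symm

omit hz in
/-- a parking index different from two given indices -/
theorem exists_park (k l : S ⊕ Fin 4) : ∃ c : Fin 4, (.inr c : S ⊕ Fin 4) ≠ k ∧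
    (.inr c : S ⊕ Fin 4) ≠ l := by
  have : ∀ c d : Fin 4, ∃ e : Fin 4, e ≠ c ∧ e ≠ d := by decide
  rcases k with k | k <;> rcases l with l | l
  · exact ⟨0, Sum.inr_ne_inl, Sum.inr_ne_inl⟩
  · obtain ⟨e, h1, _⟩ := this l l
    exact ⟨e, Sum.inr_ne_inl, fun e' => h1 (Sum.inr_injective e')⟩
  · obtain ⟨e, h1, _⟩ := this k k
    exact ⟨e, fun e' => h1 (Sum.inr_injective e'), Sum.inr_ne_inl⟩
  · obtain ⟨e, h1, h2⟩ := this k l
    exact ⟨e, fun e' => h1 (Sum.inr_injective e'), fun e' => h2 (Sum.inr_injective e')⟩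

theorem commA {i j k l : S ⊕ Fin 4} (a b : Option A) (hij : i ≠ j) (hkl : Al k l) (hjk : j ≠ k)
    (hil : i ≠ l) : Commute (yy z i j a) (z k l b) := by
  by_cases h : Al i j
  · rw [yy_al z h]
    exact hz.comm i j k l a b h hkl hjk hil
  · rcases i with s | c
    · rcases j with t | c
      · obtain ⟨c, hc1, hc2⟩ := exists_park k l
        rw [yy_ss' hz (fun e => hij (congrArg _ e)) c]
        exact commute_comm (hz.comm _ _ _ _ _ _ (al_sp s c) hkl hc1 hil)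
          (hz.comm _ _ _ _ _ _ (al_ps t c) hkl hjk hc2)
      · exact absurd (al_sp s c) h
    · exact absurd ⟨hij, Or.inl ⟨c, rfl⟩⟩ h

theorem comm_yy {i j k l : S ⊕ Fin 4} (a b : Option A) (hij : i ≠ j) (hkl : k ≠ l) (hjk : j ≠ k)
    (hil : i ≠ l) : Commute (yy z i j a) (yy z k l b) := by
  by_cases h : Al k l
  · rw [yy_al z h]
    exact commA hz a b hij h hjk hil
  · by_cases h' : Al i j
    · rw [yy_al z h']
      exact (commA hz b a hkl h' hil.symm hjk.symm).symm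
    · rcases k with s | c
      · rcases l with t | c
        · obtain ⟨c, hc1, hc2⟩ := exists_park i j
          rw [yy_ss' hz (fun e => hkl (congrArg _ e)) c]
          exact (commute_comm (commA hz a b hij (al_sp s c) hjk hc1.symm).symm
            (commA hz a none hij (al_ps t c) hc2.symm hil).symm).symm
        · exact absurd (al_sp s c) h
      · exact absurd ⟨hkl, Or.inl ⟨c, rfl⟩⟩ h

theorem sq_yy {i j : S ⊕ Fin 4} (a : Option A) (hij : i ≠ j) :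
    yy z i j a * yy z i j a = 1 := by
  by_cases h : Al i j
  · rw [yy_al z h]
    exact hz.sq i j a h
  · rcases i with s | c
    · rcases j with t | c
      · have hst : s ≠ t := fun e => hij (congrArg _ e)
        have h1 := commA hz a none hij (al_ps t 0) Sum.inl_ne_inr hij
        rw [yy_ss' hz hst 0] at h1 ⊢
        exact sq_comm (hz.sq _ _ _ (al_ps t 0)) h1
      · exact absurd (al_sp s c) h
    · exact absurd ⟨hij, Or.inl ⟨c, rfl⟩⟩ h

/-- the case parking, S, S -/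
theorem mul_pss {c : Fin 4} {s t : S} (hst : s ≠ t) {p q r : Option A} (h : MM p q r) :
    ⁅z (.inr c) (.inl s) p, yy z (.inl s) (.inl t) q⁆ = z (.inr c) (.inl t) r := by
  have hst' : (Sum.inl s : S ⊕ Fin 4) ≠ .inl t := fun e => hst (Sum.inl_injective e)
  obtain ⟨d, hd, -⟩ := exists_park (S := S) (.inr c) (.inr c)
  have hcd : Al (.inr c : S ⊕ Fin 4) (.inr d) := ⟨hd.symm, Or.inl ⟨c, rfl⟩⟩
  have e1 : ⁅z (.inr c) (.inl s) p, z (.inl s) (.inr d) q⁆ = z (.inr c) (.inr d) r :=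
    mz hz h (al_ps s c) (al_sp s d) hcd
  have e2 : ⁅z (.inr c) (.inr d) r, z (.inr d) (.inl t) none⁆ = z (.inr c) (.inl t) r :=
    mz hz (Or.inl ⟨rfl, rfl⟩) hcd (al_ps t d) (al_ps t c)
  rw [yy_ss' hz hst d, comm_assoc', e1, e2]
  · exact hz.comm _ _ _ _ _ _ (al_ps s c) (al_ps t d) Sum.inl_ne_inr Sum.inr_ne_inl
  · rw [e1, ← yy_ss' hz hst d]
    exact (commA hz q r hst' hcd Sum.inl_ne_inr Sum.inl_ne_inr).symm
  · rw [e1, e2, ← yy_ss' hz hst d]
    exact (commA hz q r hst' (al_ps t c) Sum.inl_ne_inr hst').symm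

theorem mul_yy {i j k : S ⊕ Fin 4} {p q r : Option A} (h : MM p q r) (hij : i ≠ j) (hjk : j ≠ k)
    (hik : i ≠ k) : ⁅yy z i j p, yy z j k q⁆ = yy z i k r := by
  rcases j with t | c
  · rcases i with s | c
    · have hst : s ≠ t := fun e => hij (congrArg _ e)
      rcases k with u | d
      · -- S, S, S
        have htu : t ≠ u := fun e => hjk (congrArg _ e)
        have hsu : s ≠ u := fun e => hik (congrArg _ e)
        have e1 : ⁅z (.inr 0) (.inl t) none, yy z (.inl t) (.inl u) q⁆ = z (.inr 0) (.inl u) q :=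
          mul_pss hz htu (Or.inr ⟨rfl, rfl⟩)
        have e2 : ⁅z (.inl s) (.inr 0) p, z (.inr 0) (.inl u) q⁆ = yy z (.inl s) (.inl u) r :=
          yy_ss hz hsu 0 h
        rw [yy_ss' hz hst 0, comm_assoc, e1, e2]
        · exact (commA hz q p hjk (al_sp s 0) hik.symm Sum.inl_ne_inr).symm
        · rw [e1, ← yy_ss' hz hst 0]
          exact commA hz p q hij (al_ps u 0) Sum.inl_ne_inr hik
        · rw [e1, e2]
          exact commA hz r q hik (al_ps u 0) Sum.inl_ne_inr hik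
      · -- S, S, parking
        obtain ⟨c, hc, -⟩ := exists_park (S := S) (.inr d) (.inr d)
        have hcd : Al (.inr c : S ⊕ Fin 4) (.inr d) := ⟨hc, Or.inl ⟨c, rfl⟩⟩
        have e1 : ⁅z (.inr c) (.inl t) none, z (.inl t) (.inr d) q⁆ = z (.inr c) (.inr d) q :=
          mz hz (Or.inr ⟨rfl, rfl⟩) (al_ps t c) (al_sp t d) hcd
        have e2 : ⁅z (.inl s) (.inr c) p, z (.inr c) (.inr d) q⁆ = z (.inl s) (.inr d) r :=
          mz hz h (al_sp s c) hcd (al_sp s d)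
        rw [yy_al z (al_sp t d), yy_al z (al_sp s d), yy_ss' hz hst c, comm_assoc, e1, e2]
        · exact hz.comm _ _ _ _ _ _ (al_sp s c) (al_sp t d) Sum.inr_ne_inl Sum.inl_ne_inr
        · rw [e1, ← yy_ss' hz hst c]
          exact commA hz p q hij hcd Sum.inl_ne_inr Sum.inl_ne_inr
        · rw [e1, e2]
          exact hz.comm _ _ _ _ _ _ (al_sp s d) hcd hc.symm Sum.inl_ne_inr
    · rcases k with u | d
      · -- parking, S, S
        rw [yy_al z (al_ps t c), yy_al z (al_ps u c)]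
        exact mul_pss hz (fun e => hjk (congrArg _ e)) h
      · -- parking, S, parking
        have hcd : Al (.inr c : S ⊕ Fin 4) (.inr d) := ⟨hik, Or.inl ⟨c, rfl⟩⟩
        rw [yy_al z (al_ps t c), yy_al z (al_sp t d), yy_al z hcd]
        exact mz hz h (al_ps t c) (al_sp t d) hcd
  · have h1 : Al i (.inr c) := ⟨hij, Or.inr ⟨c, rfl⟩⟩
    have h2 : Al (.inr c) k := ⟨hjk, Or.inl ⟨c, rfl⟩⟩
    rw [yy_al z h1, yy_al z h2]
    by_cases h3 : Al i k
    · rw [yy_al z h3]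
      exact mz hz h h1 h2 h3
    · rcases i with s | d
      · rcases k with t | d
        · exact yy_ss hz (fun e => hik (congrArg _ e)) c h
        · exact absurd (al_sp s d) h3
      · exact absurd ⟨hik, Or.inl ⟨d, rfl⟩⟩ h3

end

theorem t_PAIR : Y208.BH.S_PAIR := by
  intro A S Γ _ z hz
  refine ⟨yy z, ⟨fun i j a h => sq_yy hz a h, fun i j k l a b h1 h2 h3 h4 =>
    comm_yy hz a b h1 h2 h3 h4, fun i j k a h1 h2 h3 => mul_yy hz (Or.inl ⟨rfl, rfl⟩) h1 h2 h3,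
    fun i j k a h1 h2 h3 => mul_yy hz (Or.inr ⟨rfl, rfl⟩) h1 h2 h3⟩,
    fun i j a h => yy_al z h a, fun s t a c h => yy_ss' hz h c a⟩

end Pool.Agent.Y497.BH
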