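import Pool.Agent.Y208.BH.Stm

/-!
# Project BH, task TF1: Thompson's group `F` is finitely presented
-/

set_option autoImplicit false

namespace Pool.Agent.Y497.BH

open Y208.BH

section gen
variable {Γ : Type} [Group Γ]

theorem tf_shift (a : Γ) (x : ℕ → Γ) (hx : ∀ n, x (n + 1) = a * x n * a⁻¹) {j k l m : ℕ}
    (h : x k * x j = x l * x m) (n : ℕ) : x (k + n) * x (j + n) = x (l + n) * x (m + n) := by
  induction n with
  | zero => exact h
  | succ n ih =>
    rw [← add_assoc, ← add_assoc, ← add_assoc, ← add_assoc, hx, hx, hx (l + n), hx (m + n)]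
    have e1 : a * x (k + n) * a⁻¹ * (a * x (j + n) * a⁻¹) = a * (x (k + n) * x (j + n)) * a⁻¹ := by
      group
    have e2 : a * x (l + n) * a⁻¹ * (a * x (m + n) * a⁻¹) = a * (x (l + n) * x (m + n)) * a⁻¹ := by
      group
    rw [e1, e2, ih]

theorem tf_base (a : Γ) (x : ℕ → Γ) (hx : ∀ n, x (n + 1) = a * x n * a⁻¹)
    (h0 : x 2 * x 0 = x 0 * x 1) (h1 : x 3 * x 0 = x 0 * x 2) :
    ∀ k, x (k + 2) * x 0 = x 0 * x (k + 1) ∧ x (k + 3) * x 0 = x 0 * x (k + 2) := by
  intro k
  induction k with
  | zero => exact ⟨h0, h1⟩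
  | succ k ih =>
    obtain ⟨p0, p1⟩ := ih
    refine ⟨p1, ?_⟩
    have q2 : x (k + 4) * x 2 = x 2 * x (k + 3) := by
      have := tf_shift a x hx p0 2
      rw [Nat.zero_add] at this
      exact this
    have q1 : x (k + 3) * x 1 = x 1 * x (k + 2) := by
      have := tf_shift a x hx p0 1
      rw [Nat.zero_add] at this
      exact this
    have e0 : x (k + 4) = x 2 * x (k + 3) * (x 2)⁻¹ := by
      rw [← q2]; group
    have e1 : (x 2)⁻¹ * x 0 = x 0 * (x 1)⁻¹ := by
      rw [inv_mul_eq_iff_eq_mul, ← mul_assoc, h0]; group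
    have e2 : x (k + 3) = x 1 * x (k + 2) * (x 1)⁻¹ := by
      rw [← q1]; group
    show x (k + 4) * x 0 = x 0 * x (k + 3)
    rw [e0, mul_assoc, e1, mul_assoc, ← mul_assoc (x (k + 3)), p1]
    have e3 : x 2 * (x 0 * x (k + 2) * (x 1)⁻¹) = (x 2 * x 0) * (x (k + 2) * (x 1)⁻¹) := by group
    rw [e3, h0, mul_assoc, ← mul_assoc (x 1), ← e2]

theorem tf_all (a : Γ) (x : ℕ → Γ) (hx : ∀ n, x (n + 1) = a * x n * a⁻¹)
    (h0 : x 2 * x 0 = x 0 * x 1) (h1 : x 3 * x 0 = x 0 * x 2) :
    ∀ j k, j < k → x (k + 1) * x j = x j * x k := by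
  intro j k hjk
  obtain ⟨d, rfl⟩ := Nat.exists_eq_add_of_lt hjk
  have := tf_shift a x hx (tf_base a x hx h0 h1 d).1 j
  rw [Nat.zero_add] at this
  have e1 : d + 2 + j = j + d + 1 + 1 := by omega
  have e2 : d + 1 + j = j + d + 1 := by omega
  rw [e1, e2] at this
  exact this

/-- the sequence of elements with given first two elements -/
def seq (a b : Γ) : ℕ → Γ
  | 0 => a
  | n + 1 => a ^ n * b * (a ^ n)⁻¹

theorem seq_rel (a b : Γ) (h0 : a ^ 2 * b * (a ^ 2)⁻¹ * b = b * (a * b * a⁻¹))
    (h1 : a ^ 3 * b * (a ^ 3)⁻¹ * b = b * (a ^ 2 * b * (a ^ 2)⁻¹)) : TRel (seq a b) := by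
  have hx : ∀ n, seq a b (n + 1 + 1) = a * seq a b (n + 1) * a⁻¹ := by
    intro n
    simp only [seq]
    rw [pow_succ']
    group
  intro j k hjk
  cases k with
  | zero => omega
  | succ k =>
    cases j with
    | zero =>
      rw [hx]
      show a * seq a b (k + 1) * a⁻¹ * a = a * seq a b (k + 1)
      group
    | succ j =>
      refine tf_all a (fun n => seq a b (n + 1)) hx ?_ ?_ j k (by omega)
      · simp only [seq, pow_zero, one_mul, inv_one, mul_one, pow_one]
        exact h0
      · simp only [seq, pow_zero, one_mul, inv_one, mul_one]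
        exact h1

theorem seq_of_rel (X : ℕ → Γ) (hX : TRel X) : ∀ n, seq (X 0) (X 1) n = X n := by
  intro n
  cases n with
  | zero => rfl
  | succ n =>
    induction n with
    | zero => simp [seq]
    | succ n ih =>
      have h := hX 0 (n + 1) (Nat.succ_pos n)
      have e : X (n + 1 + 1) = X 0 * X (n + 1) * (X 0)⁻¹ := by
        rw [← h]; group
      rw [e, ← ih]
      simp only [seq]
      rw [pow_succ']
      group

theorem map_seq {Γ' : Type} [Group Γ'] (π : Γ →* Γ') (a b : Γ) (n : ℕ) :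
    π (seq a b n) = seq (π a) (π b) n := by
  cases n with
  | zero => rfl
  | succ n => simp [seq]

end gen

/-- the two relators -/
def rels : Set (FreeGroup Bool) :=
  let a : FreeGroup Bool := FreeGroup.of true
  let b : FreeGroup Bool := FreeGroup.of false
  {a ^ 2 * b * (a ^ 2)⁻¹ * b * (b * (a * b * a⁻¹))⁻¹,
    a ^ 3 * b * (a ^ 3)⁻¹ * b * (b * (a ^ 2 * b * (a ^ 2)⁻¹))⁻¹}

instance : Finite rels := by
  unfold rels
  exact Set.Finite.to_subtype (Set.toFinite _)

theorem t_TF1 : Y208.BH.S_TF1 := by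
  let G := PresentedGroup rels
  let a : G := PresentedGroup.of true
  let b : G := PresentedGroup.of false
  have h0 : a ^ 2 * b * (a ^ 2)⁻¹ * b = b * (a * b * a⁻¹) := by
    have := PresentedGroup.one_of_mem (rels := rels) (Or.inl rfl)
    rw [map_mul, map_inv, mul_inv_eq_one] at this
    simp only [map_mul, map_inv, map_pow] at this
    exact this
  have h1 : a ^ 3 * b * (a ^ 3)⁻¹ * b = b * (a ^ 2 * b * (a ^ 2)⁻¹) := by
    have := PresentedGroup.one_of_mem (rels := rels) (Or.inr rfl)
    rw [map_mul, map_inv, mul_inv_eq_one] at this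
    simp only [map_mul, map_inv, map_pow] at this
    exact this
  refine ⟨G, inferInstance, seq a b, inferInstance, seq_rel a b h0 h1, ?_, ?_⟩
  · rw [eq_top_iff, ← PresentedGroup.closure_range_of (rels := rels), Subgroup.closure_le]
    rintro _ ⟨i, rfl⟩
    cases i with
    | true => exact Subgroup.subset_closure ⟨0, rfl⟩
    | false =>
      refine Subgroup.subset_closure ⟨1, ?_⟩
      simp only [seq, pow_zero, one_mul, inv_one, mul_one]
      rfl
  · intro Γ _ X' hX'
    have hr : ∀ r ∈ rels, FreeGroup.lift (fun i : Bool => if i then X' 0 else X' 1) r = 1 := by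
      have hs := seq_of_rel X' hX'
      have e1 := hX' 1 2 (by norm_num)
      have e2 := hX' 1 3 (by norm_num)
      rw [← hs 3, ← hs 2] at e1
      rw [← hs 4, ← hs 3] at e2
      simp only [seq, pow_one] at e1 e2
      rintro r (rfl | rfl)
      · rw [map_mul, map_inv, mul_inv_eq_one]
        simpa using e1
      · rw [map_mul, map_inv, mul_inv_eq_one]
        simpa using e2
    refine ⟨PresentedGroup.toGroup hr, fun n => ?_⟩
    rw [map_seq]
    have ea : PresentedGroup.toGroup hr a = X' 0 := by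
      show PresentedGroup.toGroup hr (PresentedGroup.of true) = X' 0
      rw [PresentedGroup.toGroup.of]; rfl
    have eb : PresentedGroup.toGroup hr b = X' 1 := by
      show PresentedGroup.toGroup hr (PresentedGroup.of false) = X' 1
      rw [PresentedGroup.toGroup.of]; rfl
    rw [ea, eb]
    exact seq_of_rel X' hX' n

end Pool.Agent.Y497.BH
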